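import Mathlib

/-!
# MP_11b949_pr: the critical curve of the selective-interface pinning model is infinite at its
endpoint
-/

set_option autoImplicit false

open MeasureTheory ProbabilityTheory Filter Topology Finset
open scoped ENNReal

namespace Pool.Agent.Results.MP_11b949_pr.EndpointInfinite

/-! ## The model -/

/-- the simple random walk path `w_i` with steps `ε` (`true` is up, `false` is down) -/
def path {n : ℕ} (ε : Fin n → Bool) (i : ℕ) : ℤ :=
  ∑ j : Fin n, if (j : ℕ) < i then (if ε j then 1 else -1) else 0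

/-- `sign (w_{i-1}, w_i)` -/
noncomputable def edgeSign (a b : ℤ) : ℝ := if 0 < a + b then 1 else -1

/-- the Hamiltonian `H_n^η(w)` -/
noncomputable def H (lam h s : ℝ) (η : ℕ → ℝ) {n : ℕ} (ε : Fin n → Bool) : ℝ :=
  ∑ i ∈ range n, (lam * (1 + s * η (i + 1)) * (if path ε (i + 1) = 0 then 1 else 0) +
    h * edgeSign (path ε i) (path ε (i + 1)))

/-- the partition function `Z_n^η = E[exp H_n^η]` -/
noncomputable def Z (lam h s : ℝ) (η : ℕ → ℝ) (n : ℕ) : ℝ :=
  (∑ ε : Fin n → Bool, Real.exp (H lam h s η ε)) / 2 ^ n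

/-! ## The signed recursion -/

/-- normalised partition function, by recursion -/
noncomputable def Zs (ρ : ℕ → ℝ) (h : ℝ) : ℕ → ℕ → ℤ → ℝ
  | 0, _, _ => 1
  | n + 1, k, x =>
    ((if x + 1 = 0 then ρ (k + 1) else 1) * (if x + (x + 1) < 0 then Real.exp (-2 * h) else 1) *
        Zs ρ h n (k + 1) (x + 1) +
      (if x - 1 = 0 then ρ (k + 1) else 1) * (if x + (x - 1) < 0 then Real.exp (-2 * h) else 1) *
        Zs ρ h n (k + 1) (x - 1)) / 2

/-- the walk started at `x` -/
def pathx (x : ℤ) {n : ℕ} (ε : Fin n → Bool) (i : ℕ) : ℤ := x + path ε i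

/-- the Hamiltonian of a walk started at `x` at time `k` -/
noncomputable def Hx (lam h s : ℝ) (η : ℕ → ℝ) (k : ℕ) (x : ℤ) {n : ℕ} (ε : Fin n → Bool) : ℝ :=
  ∑ i ∈ range n, (lam * (1 + s * η (k + (i + 1))) * (if pathx x ε (i + 1) = 0 then 1 else 0) +
    h * edgeSign (pathx x ε i) (pathx x ε (i + 1)))

lemma path_cons_succ {n : ℕ} (b : Bool) (ε : Fin n → Bool) (i : ℕ) :
    path (Fin.cons b ε : Fin (n + 1) → Bool) (i + 1) = (if b then 1 else -1) + path ε i := by
  unfold path
  rw [Fin.sum_univ_succ]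
  simp

lemma path_zero {n : ℕ} (ε : Fin n → Bool) : path ε 0 = 0 := by simp [path]

lemma pathx_cons_succ {n : ℕ} (x : ℤ) (b : Bool) (ε : Fin n → Bool) (i : ℕ) :
    pathx x (Fin.cons b ε : Fin (n + 1) → Bool) (i + 1) = pathx (x + if b then 1 else -1) ε i := by
  unfold pathx
  rw [path_cons_succ]; ring

lemma Hx_cons (lam h s : ℝ) (η : ℕ → ℝ) (k : ℕ) (x : ℤ) {n : ℕ} (b : Bool) (ε : Fin n → Bool) :
    Hx lam h s η k x (Fin.cons b ε : Fin (n + 1) → Bool) =
      (lam * (1 + s * η (k + 1)) * (if (x + if b then 1 else -1) = 0 then 1 else 0) +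
        h * edgeSign x (x + if b then 1 else -1)) +
      Hx lam h s η (k + 1) (x + if b then 1 else -1) ε := by
  unfold Hx
  rw [Finset.sum_range_succ', add_comm]
  congr 1
  · rw [pathx_cons_succ]
    simp [pathx, path_zero]
  · refine Finset.sum_congr rfl fun i _ => ?_
    rw [pathx_cons_succ, pathx_cons_succ]
    have : k + (i + 1 + 1) = k + 1 + (i + 1) := by ring
    rw [this]

lemma Zs_eq (lam h s : ℝ) (η : ℕ → ℝ) (n : ℕ) : ∀ (k : ℕ) (x : ℤ),
    (∑ ε : Fin n → Bool, Real.exp (Hx lam h s η k x ε)) / 2 ^ n =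
      Real.exp (h * n) * Zs (fun i => Real.exp (lam * (1 + s * η i))) h n k x := by
  induction n with
  | zero => intro k x; simp [Hx, Zs]
  | succ n ih =>
    intro k x
    have h1 : ∑ ε : Fin (n + 1) → Bool, Real.exp (Hx lam h s η k x ε) =
        ∑ b : Bool, ∑ ε : Fin n → Bool, Real.exp (Hx lam h s η k x
          (Fin.cons b ε : Fin (n + 1) → Bool)) := by
      rw [← Fintype.sum_prod_type']
      exact (Equiv.sum_comp (Fin.consEquiv fun _ : Fin (n + 1) => Bool)
        (fun ε => Real.exp (Hx lam h s η k x ε))).symm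
    have key : ∀ b : Bool, ∑ ε : Fin n → Bool, Real.exp (Hx lam h s η k x
        (Fin.cons b ε : Fin (n + 1) → Bool)) = 2 ^ n * (Real.exp (h * (n + 1)) *
        ((if (x + if b then 1 else -1) = 0 then Real.exp (lam * (1 + s * η (k + 1))) else 1) *
        (if x + (x + if b then 1 else -1) < 0 then Real.exp (-2 * h) else 1) *
        Zs (fun i => Real.exp (lam * (1 + s * η i))) h n (k + 1) (x + if b then 1 else -1))) := by
      intro b
      set y : ℤ := x + if b then 1 else -1 with hy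
      have h2 := ih (k + 1) y
      rw [div_eq_iff (by positivity)] at h2
      simp only [Hx_cons, Real.exp_add]
      rw [← hy, ← Finset.mul_sum, h2]
      have h3 : Real.exp (h * edgeSign x y) =
          Real.exp h * (if x + y < 0 then Real.exp (-2 * h) else 1) := by
        unfold edgeSign
        have hodd : x + y ≠ 0 := by
          rw [hy]; rcases b with _ | _
          · simp only [Bool.false_eq_true, if_false]; omega
          · simp only [if_true]; omega
        by_cases hxy : 0 < x + y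
        · rw [if_pos hxy, if_neg (by omega), mul_one, mul_one]
        · rw [if_neg hxy, if_pos (by omega), ← Real.exp_add]; congr 1; ring
      have h4 : Real.exp (lam * (1 + s * η (k + 1)) * (if y = 0 then 1 else 0)) =
          if y = 0 then Real.exp (lam * (1 + s * η (k + 1))) else 1 := by
        split_ifs <;> simp
      rw [h3, h4]
      have h5 : Real.exp (h * (n + 1)) = Real.exp h * Real.exp (h * n) := by
        rw [← Real.exp_add]; congr 1; ring
      rw [h5]
      ring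
    rw [h1, Fintype.sum_bool, key true, key false]
    simp only [if_true, Bool.false_eq_true, if_false, Zs]
    have h6 : x + -1 = x - 1 := by ring
    rw [h6, pow_succ]
    push_cast
    field_simp

lemma Z_eq (lam h s : ℝ) (η : ℕ → ℝ) (n : ℕ) :
    Z lam h s η n = Real.exp (h * n) * Zs (fun i => Real.exp (lam * (1 + s * η i))) h n 0 0 := by
  rw [← Zs_eq]
  unfold Z
  congr 2
  funext ε
  congr 1
  unfold H Hx pathx
  simp

/-! ## The reflected recursion -/

/-- reflected recursion: height `m`, age `a` of the current excursion -/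
noncomputable def U (ρ ψ : ℕ → ℝ) : ℕ → ℕ → ℕ → ℕ → ℝ
  | 0, _, _, a => ψ a
  | n + 1, k, 0, a => U ρ ψ n (k + 1) 1 (a + 1)
  | n + 1, k, m + 1, a => (U ρ ψ n (k + 1) (m + 2) (a + 1) +
      (if m = 0 then ρ (k + 1) * ψ (a + 1) * U ρ ψ n (k + 1) 0 0
        else U ρ ψ n (k + 1) m (a + 1))) / 2

/-- the excursion weight -/
noncomputable def psi (h : ℝ) (a : ℕ) : ℝ := (1 + Real.exp (-2 * h * a)) / 2

lemma psi_zero (h : ℝ) : psi h 0 = 1 := by simp [psi]
lemma psi_pos (h : ℝ) (a : ℕ) : 0 < psi h a := by unfold psi; positivity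
lemma psi_le {h : ℝ} (hh : 0 ≤ h) (a : ℕ) : psi h a ≤ 1 := by
  unfold psi
  have : Real.exp (-2 * h * a) ≤ 1 := by
    rw [Real.exp_le_one_iff]
    have : (0 : ℝ) ≤ a := Nat.cast_nonneg a
    nlinarith [mul_nonneg hh this]
  linarith
lemma psi_ge (h : ℝ) (a : ℕ) : 1 / 2 ≤ psi h a := by
  unfold psi
  have := Real.exp_pos (-2 * h * a)
  linarith

lemma U_eq (ρ : ℕ → ℝ) (h : ℝ) (n : ℕ) : ∀ k m a : ℕ, (m = 0 → a = 0) →
    U ρ (psi h) n k m a =
      (Zs ρ h n k m + Real.exp (-2 * h * a) * Zs ρ h n k (-(m : ℤ))) / 2 := by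
  induction n with
  | zero => intro k m a _; simp [U, Zs, psi]
  | succ n ih =>
    intro k m a hma
    rcases m with _ | m
    · have ha := hma rfl
      subst ha
      simp only [U]
      rw [ih (k + 1) 1 1 (by omega)]
      simp [Zs]
    · simp only [U]
      rw [ih (k + 1) (m + 2) (a + 1) (by omega)]
      have hexp : Real.exp (-2 * h * ((a + 1 : ℕ) : ℝ)) =
          Real.exp (-2 * h * a) * Real.exp (-2 * h) := by
        rw [← Real.exp_add]; congr 1; push_cast; ring
      have e1 : Zs ρ h (n + 1) k ((m + 1 : ℕ) : ℤ) = (Zs ρ h n (k + 1) ((m + 2 : ℕ) : ℤ) +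
          (if m = 0 then ρ (k + 1) else 1) * Zs ρ h n (k + 1) ((m : ℕ) : ℤ)) / 2 := by
        simp only [Zs]
        have c1 : ¬ (((m + 1 : ℕ) : ℤ) + 1 = 0) := by push_cast; omega
        have c2 : ¬ (((m + 1 : ℕ) : ℤ) + (((m + 1 : ℕ) : ℤ) + 1) < 0) := by push_cast; omega
        have c3 : ¬ (((m + 1 : ℕ) : ℤ) + (((m + 1 : ℕ) : ℤ) - 1) < 0) := by push_cast; omega
        have c4 : (((m : ℕ) : ℤ) = 0) ↔ m = 0 := by omega
        rw [if_neg c1, if_neg c2, if_neg c3]
        have c5 : ((m + 1 : ℕ) : ℤ) + 1 = ((m + 2 : ℕ) : ℤ) := by push_cast; ring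
        have c6 : ((m + 1 : ℕ) : ℤ) - 1 = ((m : ℕ) : ℤ) := by push_cast; ring
        rw [c5]
        simp only [c6, c4]
        ring
      have e2 : Zs ρ h (n + 1) k (-((m + 1 : ℕ) : ℤ)) = Real.exp (-2 * h) *
          (Zs ρ h n (k + 1) (-((m + 2 : ℕ) : ℤ)) +
          (if m = 0 then ρ (k + 1) else 1) * Zs ρ h n (k + 1) (-((m : ℕ) : ℤ))) / 2 := by
        simp only [Zs]
        have c1 : (-((m : ℕ) : ℤ) = 0) ↔ m = 0 := by omega
        have c2 : (-((m + 1 : ℕ) : ℤ) + (-((m + 1 : ℕ) : ℤ) + 1) < 0) := by push_cast; omega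
        have c3 : (-((m + 1 : ℕ) : ℤ) + (-((m + 1 : ℕ) : ℤ) - 1) < 0) := by push_cast; omega
        have c4 : ¬ (-((m + 1 : ℕ) : ℤ) - 1 = 0) := by push_cast; omega
        rw [if_pos c2, if_pos c3, if_neg c4]
        have c5 : -((m + 1 : ℕ) : ℤ) - 1 = -((m + 2 : ℕ) : ℤ) := by push_cast; ring
        have c6 : -((m + 1 : ℕ) : ℤ) + 1 = -((m : ℕ) : ℤ) := by push_cast; ring
        rw [c5]
        simp only [c6, c1]
        ring
      rw [e1, e2, hexp]
      by_cases hm : m = 0
      · subst hm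
        simp only [if_true]
        rw [ih (k + 1) 0 0 (by omega)]
        simp only [Nat.cast_zero, neg_zero, mul_zero, Real.exp_zero, psi, hexp]
        ring
      · rw [if_neg hm, if_neg hm, ih (k + 1) m (a + 1) (fun h => absurd h hm), hexp]
        ring

lemma Z_eq_U (lam h s : ℝ) (η : ℕ → ℝ) (n : ℕ) :
    Z lam h s η n =
      Real.exp (h * n) * U (fun i => Real.exp (lam * (1 + s * η i))) (psi h) n 0 0 0 := by
  rw [Z_eq, U_eq _ _ _ _ _ _ (fun _ => rfl)]
  simp

/-! ## Positivity and the comparison -/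

lemma U_pos {ρ ψ : ℕ → ℝ} (hρ : ∀ i, 0 < ρ i) (hψ : ∀ a, 0 < ψ a) (n : ℕ) :
    ∀ k m a, 0 < U ρ ψ n k m a := by
  induction n with
  | zero => intro k m a; exact hψ a
  | succ n ih =>
    intro k m a
    rcases m with _ | m
    · exact ih _ _ _
    · simp only [U]
      have h1 := ih (k + 1) (m + 2) (a + 1)
      have h2 : 0 < (if m = 0 then ρ (k + 1) * ψ (a + 1) * U ρ ψ n (k + 1) 0 0
          else U ρ ψ n (k + 1) m (a + 1)) := by
        split_ifs
        · exact mul_pos (mul_pos (hρ _) (hψ _)) (ih _ _ _)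
        · exact ih _ _ _
      linarith

lemma pw {c1 c0 : ℝ} (h1 : 0 < c1) (h0 : 0 < c0) (κ : ℕ) :
    c1 ≤ c0 + c1 ^ (κ + 1) / c0 ^ κ := by
  rcases le_total c1 c0 with h | h
  · have : 0 ≤ c1 ^ (κ + 1) / c0 ^ κ := by positivity
    linarith
  · have h2 : c1 ≤ c1 ^ (κ + 1) / c0 ^ κ := by
      rw [le_div_iff₀ (by positivity), pow_succ, mul_comm]
      exact mul_le_mul_of_nonneg_right (pow_le_pow_left₀ h0.le h κ) h1.le
    linarith

lemma compare {ρ1 ρ0 ψ1 ψ0 : ℕ → ℝ} (hρ1 : ∀ i, 0 < ρ1 i) (hρ0 : ∀ i, 0 < ρ0 i)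
    (hψ1 : ∀ a, 0 < ψ1 a) (hψ0 : ∀ a, 0 < ψ0 a) (κ : ℕ) (n : ℕ) :
    ∀ (k m a : ℕ) (c1 c0 : ℝ), 0 < c1 → 0 < c0 →
      c1 * U ρ1 ψ1 n k m a ≤ c0 * U ρ0 ψ0 n k m a + c1 ^ (κ + 1) / c0 ^ κ *
        U (fun i => ρ1 i ^ (κ + 1) / ρ0 i ^ κ) (fun b => ψ1 b ^ (κ + 1) / ψ0 b ^ κ) n k m a := by
  induction n with
  | zero =>
    intro k m a c1 c0 h1 h0
    have := pw (mul_pos h1 (hψ1 a)) (mul_pos h0 (hψ0 a)) κ
    simp only [U]
    refine this.trans (le_of_eq ?_)
    rw [mul_pow, mul_pow]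
    field_simp
  | succ n ih =>
    intro k m a c1 c0 h1 h0
    rcases m with _ | m
    · simp only [U]
      exact ih _ _ _ _ _ h1 h0
    · simp only [U]
      have e1 := ih (k + 1) (m + 2) (a + 1) c1 c0 h1 h0
      by_cases hm : m = 0
      · rw [if_pos hm, if_pos hm, if_pos hm]
        have e2 := ih (k + 1) 0 0 (c1 * (ρ1 (k + 1) * ψ1 (a + 1))) (c0 * (ρ0 (k + 1) * ψ0 (a + 1)))
          (mul_pos h1 (mul_pos (hρ1 _) (hψ1 _))) (mul_pos h0 (mul_pos (hρ0 _) (hψ0 _)))
        have e3 : (c1 * (ρ1 (k + 1) * ψ1 (a + 1))) ^ (κ + 1) / (c0 * (ρ0 (k + 1) * ψ0 (a + 1))) ^ κ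
            = c1 ^ (κ + 1) / c0 ^ κ * ((ρ1 (k + 1) ^ (κ + 1) / ρ0 (k + 1) ^ κ) *
              (ψ1 (a + 1) ^ (κ + 1) / ψ0 (a + 1) ^ κ)) := by
          have := hρ0 (k + 1)
          have := hψ0 (a + 1)
          rw [mul_pow, mul_pow, mul_pow, mul_pow]
          field_simp
        rw [e3] at e2
        nlinarith
      · rw [if_neg hm, if_neg hm, if_neg hm]
        have e2 := ih (k + 1) m (a + 1) c1 c0 h1 h0
        nlinarith

/-! ## Survival probabilities -/

/-- probability of not hitting `0` within `j` steps, starting at `m` -/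
noncomputable def q : ℕ → ℕ → ℝ
  | 0, _ => 0
  | _ + 1, 0 => 1
  | m + 1, j + 1 => (q (m + 2) j + q m j) / 2
termination_by m j => j

lemma q_zero (j : ℕ) : q 0 j = 0 := by rw [q]
lemma q_succ_zero (m : ℕ) : q (m + 1) 0 = 1 := by rw [q]
lemma q_succ_succ (m j : ℕ) : q (m + 1) (j + 1) = (q (m + 2) j + q m j) / 2 := by rw [q]

lemma q_nonneg (j : ℕ) : ∀ m, 0 ≤ q m j := by
  induction j with
  | zero =>
    intro m
    rcases m with _ | m
    · rw [q_zero]
    · rw [q_succ_zero]; norm_num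
  | succ j ih =>
    intro m
    rcases m with _ | m
    · rw [q_zero]
    · rw [q_succ_succ]
      have := ih (m + 2)
      have := ih m
      linarith

lemma q_le_one (j : ℕ) : ∀ m, q m j ≤ 1 := by
  induction j with
  | zero =>
    intro m
    rcases m with _ | m
    · rw [q_zero]; norm_num
    · rw [q_succ_zero]
  | succ j ih =>
    intro m
    rcases m with _ | m
    · rw [q_zero]; norm_num
    · rw [q_succ_succ]
      have := ih (m + 2)
      have := ih m
      linarith

lemma q_anti (j : ℕ) : ∀ m, q m (j + 1) ≤ q m j := by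
  induction j with
  | zero =>
    intro m
    rcases m with _ | m
    · rw [q_zero, q_zero]
    · rw [q_succ_zero]; exact q_le_one _ _
  | succ j ih =>
    intro m
    rcases m with _ | m
    · rw [q_zero, q_zero]
    · rw [q_succ_succ m (j + 1), q_succ_succ m j]
      have := ih (m + 2)
      have := ih m
      linarith

lemma q_lower (j : ℕ) : ∀ m : ℕ, (m : ℝ) / (m + j) ≤ q m j := by
  induction j with
  | zero =>
    intro m
    rcases m with _ | m
    · rw [q_zero]; simp
    · rw [q_succ_zero, Nat.cast_zero, add_zero]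
      exact div_self_le_one _
  | succ j ih =>
    intro m
    rcases m with _ | m
    · rw [q_zero]; simp
    · rw [q_succ_succ]
      have h1 := ih (m + 2)
      have h2 := ih m
      rcases Nat.eq_zero_or_pos (m + j) with h0 | h0
      · have hm : m = 0 := by omega
        have hj : j = 0 := by omega
        subst hm; subst hj
        norm_num at h1 h2 ⊢
        linarith
      · have hs : (0 : ℝ) < (m : ℝ) + j := by exact_mod_cast h0
        have hm : (0 : ℝ) ≤ m := Nat.cast_nonneg m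
        refine le_trans ?_ (div_le_div_of_nonneg_right (add_le_add h1 h2) (by norm_num))
        push_cast
        rw [div_add_div _ _ (by linarith) hs.ne', div_div, div_le_div_iff₀ (by linarith)
          (by positivity)]
        nlinarith [mul_nonneg hm hs.le, sq_nonneg ((m : ℝ) + j)]

lemma q_tendsto : Tendsto (fun j => q 1 j) atTop (𝓝 0) := by
  have hlim : ∀ m, Tendsto (fun j => q m j) atTop (𝓝 (⨅ j, q m j)) := fun m =>
    tendsto_atTop_ciInf (antitone_nat_of_succ_le fun j => q_anti j m)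
      ⟨0, by rintro _ ⟨j, rfl⟩; exact q_nonneg j m⟩
  set L : ℕ → ℝ := fun m => ⨅ j, q m j with hL
  have h0 : L 0 = 0 := by
    refine tendsto_nhds_unique (hlim 0) ?_
    simp only [q_zero]; exact tendsto_const_nhds
  have hrec : ∀ m, L (m + 1) = (L (m + 2) + L m) / 2 := by
    intro m
    have h1 : Tendsto (fun j => q (m + 1) (j + 1)) atTop (𝓝 (L (m + 1))) :=
      (hlim (m + 1)).comp (tendsto_add_atTop_nat 1)
    have h2 : Tendsto (fun j => q (m + 1) (j + 1)) atTop (𝓝 ((L (m + 2) + L m) / 2)) := by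
      simp only [q_succ_succ]
      exact ((hlim (m + 2)).add (hlim m)).div_const 2
    exact tendsto_nhds_unique h1 h2
  have hlin : ∀ m : ℕ, L m = m * L 1 ∧ L (m + 1) = (m + 1) * L 1 := by
    intro m
    induction m with
    | zero => simp [h0]
    | succ m ih =>
      have := hrec m
      push_cast
      refine ⟨ih.2, ?_⟩
      rw [ih.1, ih.2] at this
      linarith
  have hle : ∀ m, L m ≤ 1 := fun m => ciInf_le_of_le ⟨0, by
    rintro _ ⟨j, rfl⟩; exact q_nonneg j m⟩ 0 (q_le_one 0 m)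
  have hL1 : 0 ≤ L 1 := le_ciInf fun j => q_nonneg j 1
  have hz : L 1 = 0 := by
    by_contra hne
    have hpos : 0 < L 1 := lt_of_le_of_ne hL1 (Ne.symm hne)
    obtain ⟨N, hN⟩ := exists_nat_gt (1 / L 1)
    have h1 := hle N
    rw [(hlin N).1] at h1
    rw [div_lt_iff₀ hpos] at hN
    linarith
  have := hlim 1
  change Tendsto (fun j => q 1 j) atTop (𝓝 (L 1)) at this
  rwa [hz] at this

/-- lower bound of the partition function by survival -/
lemma U_lower {ρ : ℕ → ℝ} (hρ : ∀ i, 0 < ρ i) (h : ℝ) (n : ℕ) : ∀ k m a,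
    q m n / 2 ≤ U ρ (psi h) n k m a := by
  induction n with
  | zero =>
    intro k m a
    have := psi_ge h a
    have := q_le_one 0 m
    simp only [U]
    linarith
  | succ n ih =>
    intro k m a
    rcases m with _ | m
    · rw [q_zero, zero_div]
      exact (U_pos hρ (psi_pos h) _ _ _ _).le
    · rw [q_succ_succ]
      simp only [U]
      have e1 := ih (k + 1) (m + 2) (a + 1)
      by_cases hm : m = 0
      · rw [if_pos hm]
        have : 0 < ρ (k + 1) * psi h (a + 1) * U ρ (psi h) n (k + 1) 0 0 :=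
          mul_pos (mul_pos (hρ _) (psi_pos h _)) (U_pos hρ (psi_pos h) _ _ _ _)
        subst hm
        rw [q_zero]
        linarith
      · rw [if_neg hm]
        have e2 := ih (k + 1) m (a + 1)
        linarith

/-! ## The annealed bound -/

lemma U_congr {ρ ρ' ψ : ℕ → ℝ} (n : ℕ) : ∀ k m a, (∀ i, k < i → i ≤ k + n → ρ i = ρ' i) →
    U ρ ψ n k m a = U ρ' ψ n k m a := by
  induction n with
  | zero => intro k m a _; rfl
  | succ n ih =>
    intro k m a h
    have hs : ∀ i, k + 1 < i → i ≤ k + 1 + n → ρ i = ρ' i := fun i h1 h2 => h i (by omega) (by omega)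
    rcases m with _ | m
    · simp only [U]; exact ih _ _ _ hs
    · simp only [U]
      rw [ih _ _ _ hs, ih _ 0 0 hs, ih _ m _ hs, h (k + 1) (by omega) (by omega)]

lemma U_meas {α : Type*} [MeasurableSpace α] {ρ : α → ℕ → ℝ} (hρ : ∀ i, Measurable fun x => ρ x i)
    (ψ : ℕ → ℝ) (n : ℕ) : ∀ k m a, Measurable fun x => U (ρ x) ψ n k m a := by
  induction n with
  | zero => intro k m a; exact measurable_const
  | succ n ih =>
    intro k m a
    rcases m with _ | m
    · simp only [U]; exact ih _ _ _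
    · simp only [U]
      refine Measurable.div_const ((ih _ _ _).add ?_) _
      by_cases hm : m = 0
      · simp only [hm, if_true]
        exact ((hρ _).mul_const _).mul (ih _ _ _)
      · simp only [hm, if_false]; exact ih _ _ _

/-- the Lyapunov function -/
noncomputable def V (A gS : ℝ) (R m a : ℕ) : ℝ :=
  if m = 0 then 2 else A * 2 * (gS + q m (R - a)) + 1

lemma V_pos {A gS : ℝ} (hA : 0 ≤ A) (hg : 0 ≤ gS) (R m a : ℕ) : 0 ≤ V A gS R m a := by
  unfold V
  have := q_nonneg (R - a) m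
  split_ifs
  · norm_num
  · positivity

/-- Lyapunov inequality at height `≥ 1` -/
lemma V_step {A gS : ℝ} (hA : 0 ≤ A) (hg : 0 ≤ gS) {θ : ℕ → ℝ} {R : ℕ}
    (h1 : ∀ a, 1 ≤ a → a ≤ R → θ a ≤ gS) (h2 : ∀ a, θ a ≤ 1) (m a : ℕ) :
    (V A gS R (m + 2) (a + 1) + (if m = 0 then A * θ (a + 1) * 2 else V A gS R m (a + 1))) / 2 ≤
      V A gS R (m + 1) a := by
  unfold V
  rw [if_neg (by omega), if_neg (by omega : ¬ m + 1 = 0)]
  rcases lt_or_ge a R with haR | haR
  · have e : R - a = (R - (a + 1)) + 1 := by omega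
    rw [e, q_succ_succ]
    by_cases hm : m = 0
    · rw [if_pos hm]
      subst hm
      rw [q_zero]
      have := h1 (a + 1) (by omega) (by omega)
      nlinarith
    · rw [if_neg hm, if_neg hm]
      linarith
  · have e1 : R - a = 0 := by omega
    have e2 : R - (a + 1) = 0 := by omega
    rw [e1, e2]
    by_cases hm : m = 0
    · rw [if_pos hm]
      subst hm
      rw [q_succ_zero, q_succ_zero]
      have := h2 (a + 1)
      nlinarith
    · rw [if_neg hm, if_neg hm]
      obtain ⟨m', rfl⟩ := Nat.exists_eq_succ_of_ne_zero hm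
      rw [q_succ_zero, q_succ_zero, q_succ_zero]
      linarith

lemma V_zero_step {A gS : ℝ} {R : ℕ} (h : A * (gS + q 1 (R - 1)) ≤ 1 / 2) :
    V A gS R 1 1 ≤ V A gS R 0 0 := by
  unfold V
  rw [if_neg (by norm_num), if_pos rfl]
  linarith

section prob

variable {Ω : Type*} [MeasurableSpace Ω] {P : Measure Ω} {η : ℕ → Ω → ℝ}

/-- the expectation of the reflected partition function is bounded -/
lemma annealed (hm : ∀ i, Measurable (η i)) (hind : iIndepFun η P)
    {F : ℝ → ℝ} (hF : Measurable F) (hF0 : ∀ x, 0 < F x) {A : ℝ} (hA : 0 ≤ A)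
    (hEF : ∀ i, ∫⁻ ω, ENNReal.ofReal (F (η i ω)) ∂P ≤ ENNReal.ofReal A)
    {θ : ℕ → ℝ} (hθ0 : ∀ a, 0 < θ a) {gS : ℝ} (hg : 0 ≤ gS) {R : ℕ}
    (h1 : ∀ a, 1 ≤ a → a ≤ R → θ a ≤ gS) (h2 : ∀ a, θ a ≤ 1)
    (h3 : A * (gS + q 1 (R - 1)) ≤ 1 / 2) (n : ℕ) :
    ∀ k m a, (m = 0 → a = 0) →
      ∫⁻ ω, ENNReal.ofReal (U (fun i => F (η i ω)) θ n k m a) ∂P ≤ ENNReal.ofReal (V A gS R m a) := by
  have hP : IsProbabilityMeasure P := hind.isProbabilityMeasure
  have hmeas : ∀ n k m a, Measurable fun ω => U (fun i => F (η i ω)) θ n k m a := fun n k m a =>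
    U_meas (fun i => hF.comp (hm i)) θ n k m a
  have hpos : ∀ n k m a ω, 0 < U (fun i => F (η i ω)) θ n k m a := fun n k m a ω =>
    U_pos (fun i => hF0 _) hθ0 n k m a
  induction n with
  | zero =>
    intro k m a hma
    simp only [U, lintegral_const, measure_univ, mul_one]
    apply ENNReal.ofReal_le_ofReal
    have hh := h2 a
    unfold V
    split_ifs
    · linarith
    · have := q_nonneg (R - a) m
      have : 0 ≤ A * 2 * (gS + q m (R - a)) := by positivity
      linarith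
  | succ n ih =>
    intro k m a hma
    rcases m with _ | m
    · have ha : a = 0 := hma rfl
      subst ha
      simp only [U]
      exact (ih (k + 1) 1 1 (by omega)).trans (ENNReal.ofReal_le_ofReal (V_zero_step h3))
    · simp only [U]
      have e1 := ih (k + 1) (m + 2) (a + 1) (by omega)
      -- the two terms
      have hsplit : ∀ (X Y : Ω → ℝ), (∀ ω, 0 ≤ X ω) → (∀ ω, 0 ≤ Y ω) → Measurable X →
          ∀ x y : ℝ, 0 ≤ x → 0 ≤ y → ∫⁻ ω, ENNReal.ofReal (X ω) ∂P ≤ ENNReal.ofReal x →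
          ∫⁻ ω, ENNReal.ofReal (Y ω) ∂P ≤ ENNReal.ofReal y →
          ∫⁻ ω, ENNReal.ofReal ((X ω + Y ω) / 2) ∂P ≤ ENNReal.ofReal ((x + y) / 2) := by
        intro X Y hX hY hXm x y hx hy hxi hyi
        have e : ∀ ω, ENNReal.ofReal ((X ω + Y ω) / 2) =
            ENNReal.ofReal (1 / 2) * (ENNReal.ofReal (X ω) + ENNReal.ofReal (Y ω)) := by
          intro ω
          rw [← ENNReal.ofReal_add (hX ω) (hY ω), ← ENNReal.ofReal_mul (by norm_num)]
          congr 1; ring
        simp only [e]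
        rw [lintegral_const_mul' _ _ ENNReal.ofReal_ne_top,
          lintegral_add_left (hXm.ennreal_ofReal)]
        have e' : ENNReal.ofReal ((x + y) / 2) = ENNReal.ofReal (1 / 2) *
            (ENNReal.ofReal x + ENNReal.ofReal y) := by
          rw [← ENNReal.ofReal_add hx hy, ← ENNReal.ofReal_mul (by norm_num)]
          congr 1; ring
        rw [e']
        gcongr
      by_cases hm0 : m = 0
      · simp only [hm0, if_true]
        subst hm0
        -- independence
        set T : Finset ℕ := Finset.Icc (k + 2) (k + 1 + n) with hT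
        have hdisj : Disjoint ({k + 1} : Finset ℕ) T := by
          rw [Finset.disjoint_singleton_left, hT, Finset.mem_Icc]; omega
        have hI := hind.indepFun_finset {k + 1} T hdisj hm
        set G1 : (({k + 1} : Finset ℕ) → ℝ) → ℝ≥0∞ := fun v =>
          ENNReal.ofReal (F (v ⟨k + 1, Finset.mem_singleton_self _⟩)) with hG1
        set G2 : (T → ℝ) → ℝ≥0∞ := fun v => ENNReal.ofReal
          (U (fun i => if h : i ∈ T then F (v ⟨i, h⟩) else 0) θ n (k + 1) 0 0) with hG2
        have hG1m : Measurable G1 := (hF.comp (measurable_pi_apply _)).ennreal_ofReal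
        have hG2m : Measurable G2 := by
          refine (U_meas (fun i => ?_) θ n (k + 1) 0 0).ennreal_ofReal
          by_cases h : i ∈ T
          · simp only [h, dif_pos]
            exact hF.comp (measurable_pi_apply _)
          · simp only [h, dif_neg, not_false_eq_true]
            exact measurable_const
        have hI2 := hI.comp hG1m hG2m
        have hU2 : ∀ ω, G2 (fun i : T => η i ω) =
            ENNReal.ofReal (U (fun i => F (η i ω)) θ n (k + 1) 0 0) := by
          intro ω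
          rw [hG2]
          simp only
          congr 1
          refine U_congr n (k + 1) 0 0 fun i hi1 hi2 => ?_
          have : i ∈ T := by rw [hT, Finset.mem_Icc]; omega
          rw [dif_pos this]
        have hprod := lintegral_mul_eq_lintegral_mul_lintegral_of_indepFun
          (hG1m.comp (measurable_pi_lambda _ fun i => hm i))
          (hG2m.comp (measurable_pi_lambda _ fun i => hm i)) hI2
        have hY : ∫⁻ ω, ENNReal.ofReal (F (η (k + 1) ω) * θ (a + 1) *
            U (fun i => F (η i ω)) θ n (k + 1) 0 0) ∂P ≤ ENNReal.ofReal (A * θ (a + 1) * 2) := by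
          have e : ∀ ω, ENNReal.ofReal (F (η (k + 1) ω) * θ (a + 1) *
              U (fun i => F (η i ω)) θ n (k + 1) 0 0) = ENNReal.ofReal (θ (a + 1)) *
              (ENNReal.ofReal (F (η (k + 1) ω)) *
                ENNReal.ofReal (U (fun i => F (η i ω)) θ n (k + 1) 0 0)) := by
            intro ω
            rw [← ENNReal.ofReal_mul (hF0 _).le, ← ENNReal.ofReal_mul (hθ0 _).le]
            congr 1; ring
          simp only [e]
          rw [lintegral_const_mul' _ _ ENNReal.ofReal_ne_top]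
          have e2 : ∫⁻ ω, ENNReal.ofReal (F (η (k + 1) ω)) *
              ENNReal.ofReal (U (fun i => F (η i ω)) θ n (k + 1) 0 0) ∂P =
              (∫⁻ ω, ENNReal.ofReal (F (η (k + 1) ω)) ∂P) *
              ∫⁻ ω, ENNReal.ofReal (U (fun i => F (η i ω)) θ n (k + 1) 0 0) ∂P := by
            have := hprod
            simp only [Pi.mul_apply, Function.comp, hU2] at this
            exact this
          rw [e2]
          have e3 : ENNReal.ofReal (A * θ (a + 1) * 2) =
              ENNReal.ofReal (θ (a + 1)) * (ENNReal.ofReal A * ENNReal.ofReal 2) := by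
            rw [← ENNReal.ofReal_mul hA, ← ENNReal.ofReal_mul (hθ0 _).le]
            congr 1; ring
          rw [e3]
          have e4 := ih (k + 1) 0 0 (by omega)
          have e5 : V A gS R 0 0 = 2 := by simp [V]
          rw [e5] at e4
          gcongr
          exact hEF (k + 1)
        have hV := V_step (A := A) hA hg h1 h2 0 a
        rw [if_pos rfl] at hV
        refine le_trans (hsplit _ _ (fun ω => (hpos _ _ _ _ ω).le)
          (fun ω => (mul_pos (mul_pos (hF0 _) (hθ0 _)) (hpos _ _ _ _ ω)).le) (hmeas _ _ _ _)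
          _ _ (V_pos hA hg _ _ _) (mul_nonneg (mul_nonneg hA (hθ0 _).le) (by norm_num)) e1 hY)
          (ENNReal.ofReal_le_ofReal hV)
      · simp only [hm0, if_false]
        have hV := V_step (A := A) hA hg h1 h2 m a
        rw [if_neg hm0] at hV
        have e2 := ih (k + 1) m (a + 1) (fun h => absurd h hm0)
        exact le_trans (hsplit _ _ (fun ω => (hpos _ _ _ _ ω).le) (fun ω => (hpos _ _ _ _ ω).le)
          (hmeas _ _ _ _) _ _ (V_pos hA hg _ _ _) (V_pos hA hg _ _ _) e1 e2)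
          (ENNReal.ofReal_le_ofReal hV)

end prob

/-! ## The theorem -/

/-- `f` is the quenched free energy of the model with disorder `η` and parameter `s`. -/
def IsFreeEnergy {Ω : Type*} [MeasurableSpace Ω] (P : Measure Ω) (η : ℕ → Ω → ℝ) (s : ℝ)
    (f : ℝ → ℝ → ℝ) : Prop :=
  ∀ lam h : ℝ, 0 ≤ lam → 0 ≤ h → ∀ᵐ ω ∂P,
    Tendsto (fun n : ℕ => Real.log (Z lam h s (fun i => η i ω) n) / n) atTop (𝓝 (f lam h))

/-- the critical curve `h_c(λ) = inf {h ≥ 0 : f(λ,h) = h} ∈ [0,∞]` -/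
noncomputable def hc (f : ℝ → ℝ → ℝ) (lam : ℝ) : EReal :=
  sInf {x : EReal | ∃ h : ℝ, 0 ≤ h ∧ f lam h = h ∧ x = (h : EReal)}

lemma rho_pos (lam s : ℝ) (η : ℕ → ℝ) (i : ℕ) : 0 < Real.exp (lam * (1 + s * η i)) :=
  Real.exp_pos _

lemma log_Z (lam h s : ℝ) (η : ℕ → ℝ) {n : ℕ} (hn : 1 ≤ n) :
    Real.log (Z lam h s η n) / n = h +
      Real.log (U (fun i => Real.exp (lam * (1 + s * η i))) (psi h) n 0 0 0) / n := by
  have hn' : (0 : ℝ) < n := by exact_mod_cast hn
  rw [Z_eq_U, Real.log_mul (Real.exp_pos _).ne'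
    (U_pos (rho_pos lam s η) (psi_pos h) _ _ _ _).ne', Real.log_exp]
  field_simp

section main

variable {Ω : Type*} [MeasurableSpace Ω] {P : Measure Ω} [IsProbabilityMeasure P]
  {η : ℕ → Ω → ℝ}

lemma f_ge {s : ℝ} {f : ℝ → ℝ → ℝ} (hf : IsFreeEnergy P η s f) {lam h : ℝ} (hl : 0 ≤ lam)
    (hh : 0 ≤ h) : h ≤ f lam h := by
  obtain ⟨ω, hω⟩ := (hf lam h hl hh).exists
  have h1 : Tendsto (fun n : ℕ => h + -(Real.log (2 * n) / n)) atTop (𝓝 (h + -0)) := by
    refine tendsto_const_nhds.add (Tendsto.neg ?_)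
    have h2 : Tendsto (fun x : ℝ => Real.log x / x) atTop (𝓝 0) := by
      have := Real.isLittleO_log_id_atTop.tendsto_div_nhds_zero
      simpa using this
    have h3 : Tendsto (fun n : ℕ => (2 : ℝ) * n) atTop atTop :=
      tendsto_natCast_atTop_atTop.const_mul_atTop (by norm_num)
    have h4 := (h2.comp h3).const_mul 2
    rw [mul_zero] at h4
    refine h4.congr' ?_
    filter_upwards [eventually_ge_atTop 1] with n hn
    have hn' : (0 : ℝ) < n := by exact_mod_cast hn
    simp only [Function.comp]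
    field_simp
  rw [neg_zero, add_zero] at h1
  refine le_of_tendsto_of_tendsto h1 hω ?_
  filter_upwards [eventually_ge_atTop 1] with n hn
  rw [log_Z _ _ _ _ hn]
  obtain ⟨m, rfl⟩ : ∃ m, n = m + 1 := ⟨n - 1, by omega⟩
  have hn' : (0 : ℝ) < (m + 1 : ℕ) := by positivity
  have h5 := U_lower (rho_pos lam s fun i => η i ω) h m 1 1 1
  have h6 := q_lower m 1
  have h7 : U (fun i => Real.exp (lam * (1 + s * η i ω))) (psi h) (m + 1) 0 0 0 =
      U (fun i => Real.exp (lam * (1 + s * η i ω))) (psi h) m 1 1 1 := rfl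
  have h8 : (2 * ((m + 1 : ℕ) : ℝ))⁻¹ ≤
      U (fun i => Real.exp (lam * (1 + s * η i ω))) (psi h) (m + 1) 0 0 0 := by
    rw [h7]
    refine le_trans ?_ h5
    have : (2 * ((m + 1 : ℕ) : ℝ))⁻¹ = (((1 : ℕ) : ℝ) / ((1 : ℕ) + m)) / 2 := by
      push_cast
      field_simp
      ring
    rw [this]
    linarith
  have h9 := Real.log_le_log (by positivity) h8
  rw [Real.log_inv] at h9
  rw [← neg_div]
  have := div_le_div_of_nonneg_right h9 hn'.le
  linarith

lemma f_gt_of_hc {s : ℝ} {f : ℝ → ℝ → ℝ} (hf : IsFreeEnergy P η s f) {lam : ℝ} (hl : 0 ≤ lam)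
    (htop : hc f lam = ⊤) {h : ℝ} (hh : 0 ≤ h) : h < f lam h := by
  refine lt_of_le_of_ne (f_ge hf hl hh) fun heq => ?_
  unfold hc at htop
  rw [sInf_eq_top] at htop
  exact EReal.coe_ne_top h (htop h ⟨h, hh, heq.symm, rfl⟩)

lemma psi_ratio {h0 h1 : ℝ} (_hh0 : 0 ≤ h0) (hlt : h0 < h1) {a : ℕ} (ha : 1 ≤ a) :
    psi h1 a / psi h0 a < 1 := by
  rw [div_lt_one (psi_pos _ _)]
  unfold psi
  have ha' : (1 : ℝ) ≤ a := by exact_mod_cast ha
  have : Real.exp (-2 * h1 * a) < Real.exp (-2 * h0 * a) := by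
    apply Real.exp_lt_exp.2
    nlinarith
  linarith

lemma psi_ratio_le {h0 h1 : ℝ} (hh0 : 0 ≤ h0) (hlt : h0 < h1) (a : ℕ) :
    psi h1 a / psi h0 a ≤ 1 := by
  rcases Nat.eq_zero_or_pos a with h | h
  · subst h; rw [psi_zero, psi_zero]; norm_num
  · exact (psi_ratio hh0 hlt h).le

lemma theta_eq (h0 h1 : ℝ) (κ a : ℕ) :
    psi h1 a ^ (κ + 1) / psi h0 a ^ κ = psi h1 a * (psi h1 a / psi h0 a) ^ κ := by
  rw [div_pow, pow_succ]
  ring

/-- the key step -/
lemma key (hm : ∀ i, Measurable (η i)) (hind : iIndepFun η P)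
    (hid : ∀ i, IdentDistrib (η i) (η 0) P P) {s : ℝ} {f : ℝ → ℝ → ℝ}
    (hf : IsFreeEnergy P η s f) {lamc : ℝ} (hlamc : 0 < lamc)
    (hthr : ∀ lam, lamc < lam → hc f lam = ⊤)
    (hexp : ∃ t, lamc < t ∧ Integrable (fun ω => Real.exp (t * s * η 0 ω)) P)
    {h0 : ℝ} (hh0 : 0 ≤ h0) : h0 < f lamc h0 := by
  obtain ⟨t, ht, htint⟩ := hexp
  set F : ℝ → ℝ := fun x => Real.exp (t * (1 + s * x)) with hF
  have hFm : Measurable F := by rw [hF]; fun_prop
  have hF0 : ∀ x, 0 < F x := fun x => Real.exp_pos _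
  have hFint : Integrable (fun ω => F (η 0 ω)) P := by
    have := htint.const_mul (Real.exp t)
    refine this.congr (Eventually.of_forall fun ω => ?_)
    rw [hF]
    simp only
    rw [← Real.exp_add]
    congr 1; ring
  set A : ℝ := 1 + ∫ ω, F (η 0 ω) ∂P with hA
  have hI0 : 0 ≤ ∫ ω, F (η 0 ω) ∂P := integral_nonneg fun ω => (hF0 _).le
  have hA0 : 0 < A := by rw [hA]; linarith
  have hEF : ∀ i, ∫⁻ ω, ENNReal.ofReal (F (η i ω)) ∂P ≤ ENNReal.ofReal A := by
    intro i
    have h1 : ∫⁻ ω, ENNReal.ofReal (F (η i ω)) ∂P = ∫⁻ ω, ENNReal.ofReal (F (η 0 ω)) ∂P :=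
      ((hid i).comp (u := fun x => ENNReal.ofReal (F x)) hFm.ennreal_ofReal).lintegral_eq
    rw [h1, ← ofReal_integral_eq_lintegral_ofReal hFint (Eventually.of_forall fun ω => (hF0 _).le)]
    exact ENNReal.ofReal_le_ofReal (by rw [hA]; linarith)
  -- the radius
  have hq : ∀ᶠ j in atTop, q 1 j < 1 / (4 * A) :=
    q_tendsto.eventually (gt_mem_nhds (by positivity))
  obtain ⟨N, hN⟩ := eventually_atTop.1 hq
  set R := N + 1 with hR
  have hqR : q 1 (R - 1) ≤ 1 / (4 * A) := (hN (R - 1) (by omega)).le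
  -- the power
  have hκ : ∀ᶠ κ : ℕ in atTop, ∀ a ∈ Finset.Icc 1 R, (psi (h0 + 1) a / psi h0 a) ^ κ < 1 / (4 * A) := by
    rw [eventually_all_finset]
    intro a ha
    rw [Finset.mem_Icc] at ha
    have h1 : 0 ≤ psi (h0 + 1) a / psi h0 a := (div_pos (psi_pos _ _) (psi_pos _ _)).le
    exact (tendsto_pow_atTop_nhds_zero_of_lt_one h1 (psi_ratio hh0 (by linarith) ha.1)).eventually
      (gt_mem_nhds (by positivity))
  obtain ⟨κ, hκ'⟩ := hκ.exists
  set θ : ℕ → ℝ := fun b => psi (h0 + 1) b ^ (κ + 1) / psi h0 b ^ κ with hθ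
  have hθ0 : ∀ a, 0 < θ a := fun a => div_pos (pow_pos (psi_pos _ _) _) (pow_pos (psi_pos _ _) _)
  have hθ1 : ∀ a, 1 ≤ a → a ≤ R → θ a ≤ 1 / (4 * A) := by
    intro a ha1 ha2
    rw [hθ]
    simp only
    rw [theta_eq]
    have h1 := hκ' a (Finset.mem_Icc.2 ⟨ha1, ha2⟩)
    have h2 := psi_le (h := h0 + 1) (by linarith) a
    have h3 := psi_pos (h0 + 1) a
    have h4 : 0 ≤ (psi (h0 + 1) a / psi h0 a) ^ κ :=
      pow_nonneg (div_pos (psi_pos _ _) (psi_pos _ _)).le _
    nlinarith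
  have hθ2 : ∀ a, θ a ≤ 1 := by
    intro a
    rw [hθ]
    simp only
    rw [theta_eq]
    have h1 : (psi (h0 + 1) a / psi h0 a) ^ κ ≤ 1 :=
      pow_le_one₀ (div_pos (psi_pos _ _) (psi_pos _ _)).le (psi_ratio_le hh0 (by linarith) a)
    have h2 := psi_le (h := h0 + 1) (by linarith) a
    have h3 := psi_pos (h0 + 1) a
    have h4 : 0 ≤ (psi (h0 + 1) a / psi h0 a) ^ κ :=
      pow_nonneg (div_pos (psi_pos _ _) (psi_pos _ _)).le _
    nlinarith
  have h3 : A * (1 / (4 * A) + q 1 (R - 1)) ≤ 1 / 2 := by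
    have : A * (1 / (4 * A) + q 1 (R - 1)) ≤ A * (1 / (4 * A) + 1 / (4 * A)) :=
      mul_le_mul_of_nonneg_left (by linarith) hA0.le
    refine this.trans (le_of_eq ?_)
    field_simp
    norm_num
  -- the shift in `lam`
  set D := (t - lamc) / (κ + 1) with hD
  have hD0 : 0 < D := div_pos (by linarith) (by positivity)
  set lam1 := lamc + D with hlam1
  have hrho : ∀ x : ℝ, Real.exp (lam1 * (1 + s * x)) ^ (κ + 1) / Real.exp (lamc * (1 + s * x)) ^ κ
      = F x := by
    intro x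
    rw [hF]
    simp only
    rw [← Real.exp_nat_mul, ← Real.exp_nat_mul, ← Real.exp_sub]
    congr 1
    have h4 : D * (κ + 1) = t - lamc := by rw [hD]; field_simp
    rw [hlam1]
    push_cast
    have h5 : ((κ : ℝ) + 1) * ((lamc + D) * (1 + s * x)) - κ * (lamc * (1 + s * x)) =
      (lamc + D * (κ + 1)) * (1 + s * x) := by ring
    rw [h5, h4]
    ring
  have hf1 := f_gt_of_hc hf (by linarith : 0 ≤ lam1) (hthr lam1 (by linarith))
    (show 0 ≤ h0 + 1 by linarith)
  set φ := f lam1 (h0 + 1) - (h0 + 1) with hφ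
  have hφ0 : 0 < φ := by rw [hφ]; linarith
  -- the bad part
  set UB : ℕ → Ω → ℝ := fun n ω => U (fun i => F (η i ω)) θ n 0 0 0 with hUB
  have hUBm : ∀ n, Measurable (UB n) := fun n => U_meas (fun i => hFm.comp (hm i)) θ n 0 0 0
  have hUBi : ∀ n, ∫⁻ ω, ENNReal.ofReal (UB n ω) ∂P ≤ ENNReal.ofReal 2 := by
    intro n
    have := annealed hm hind hFm hF0 hA0.le hEF hθ0 (by positivity) hθ1 hθ2 h3 n 0 0 0
      (fun _ => rfl)
    simpa [V] using this
  have hBC : ∀ᵐ ω ∂P, ∀ᶠ n : ℕ in atTop, ω ∉ {ω | Real.exp (φ / 4 * n) ≤ UB n ω} := by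
    refine ae_eventually_notMem ?_
    have hle : ∀ n : ℕ, P {ω | Real.exp (φ / 4 * n) ≤ UB n ω} ≤
        ENNReal.ofReal (2 * Real.exp (-(φ / 4)) ^ n) := by
      intro n
      have h4 := mul_meas_ge_le_lintegral₀ (μ := P) (f := fun ω => ENNReal.ofReal (UB n ω))
        (hUBm n).ennreal_ofReal.aemeasurable (ENNReal.ofReal (Real.exp (φ / 4 * n)))
      have h5 : {ω | Real.exp (φ / 4 * n) ≤ UB n ω} ⊆
          {ω | ENNReal.ofReal (Real.exp (φ / 4 * n)) ≤ ENNReal.ofReal (UB n ω)} :=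
        fun ω hω => ENNReal.ofReal_le_ofReal hω
      have h6 : ENNReal.ofReal (Real.exp (φ / 4 * n)) * P {ω | Real.exp (φ / 4 * n) ≤ UB n ω} ≤
          ENNReal.ofReal 2 := by
        refine le_trans ?_ (h4.trans (hUBi n))
        gcongr
      have h7 : P {ω | Real.exp (φ / 4 * n) ≤ UB n ω} =
          ENNReal.ofReal (Real.exp (-(φ / 4)) ^ n) * (ENNReal.ofReal (Real.exp (φ / 4 * n)) *
            P {ω | Real.exp (φ / 4 * n) ≤ UB n ω}) := by
        rw [← mul_assoc, ← ENNReal.ofReal_mul (by positivity)]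
        have : Real.exp (-(φ / 4)) ^ n * Real.exp (φ / 4 * n) = 1 := by
          rw [← Real.exp_nat_mul, ← Real.exp_add, Real.exp_eq_one_iff]; ring
        rw [this, ENNReal.ofReal_one, one_mul]
      rw [h7, mul_comm (2 : ℝ), ENNReal.ofReal_mul (by positivity)]
      gcongr
    refine ne_top_of_le_ne_top ?_ (ENNReal.tsum_le_tsum hle)
    have hsum : Summable (fun n : ℕ => 2 * Real.exp (-(φ / 4)) ^ n) := by
      refine (summable_geometric_of_lt_one (Real.exp_pos _).le ?_).mul_left 2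
      rw [Real.exp_lt_one_iff]; linarith
    exact hsum.tsum_ofReal_ne_top
  -- a good realisation
  obtain ⟨ω, hω1, hω0, hωB⟩ := ((hf lam1 (h0 + 1) (by linarith) (by linarith)).and
    ((hf lamc h0 hlamc.le hh0).and hBC)).exists
  set e : ℕ → ℝ := fun i => η i ω with he
  set U1 : ℕ → ℝ := fun n => U (fun i => Real.exp (lam1 * (1 + s * e i))) (psi (h0 + 1)) n 0 0 0
    with hU1
  set U0 : ℕ → ℝ := fun n => U (fun i => Real.exp (lamc * (1 + s * e i))) (psi h0) n 0 0 0
    with hU0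
  have hU1pos : ∀ n, 0 < U1 n := fun n => U_pos (rho_pos lam1 s e) (psi_pos _) _ _ _ _
  have hU0pos : ∀ n, 0 < U0 n := fun n => U_pos (rho_pos lamc s e) (psi_pos _) _ _ _ _
  have hcmp : ∀ n, U1 n ≤ U0 n + UB n ω := by
    intro n
    have h4 := compare (ρ1 := fun i => Real.exp (lam1 * (1 + s * e i)))
      (ρ0 := fun i => Real.exp (lamc * (1 + s * e i))) (ψ1 := psi (h0 + 1)) (ψ0 := psi h0)
      (rho_pos lam1 s e) (rho_pos lamc s e) (psi_pos _) (psi_pos _) κ n 0 0 0 1 1 one_pos one_pos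
    simp only [one_mul, one_pow, div_one, hrho] at h4
    exact h4
  have hlim1 : Tendsto (fun n : ℕ => Real.log (U1 n) / n) atTop (𝓝 φ) := by
    have h4 : Tendsto (fun n : ℕ => Real.log (Z lam1 (h0 + 1) s e n) / n - (h0 + 1)) atTop
        (𝓝 (f lam1 (h0 + 1) - (h0 + 1))) := hω1.sub_const _
    refine h4.congr' ?_
    filter_upwards [eventually_ge_atTop 1] with n hn
    rw [log_Z _ _ _ _ hn]
    ring
  have hlim0 : Tendsto (fun n : ℕ => Real.log (U0 n) / n) atTop (𝓝 (f lamc h0 - h0)) := by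
    have h4 : Tendsto (fun n : ℕ => Real.log (Z lamc h0 s e n) / n - h0) atTop
        (𝓝 (f lamc h0 - h0)) := hω0.sub_const _
    refine h4.congr' ?_
    filter_upwards [eventually_ge_atTop 1] with n hn
    rw [log_Z _ _ _ _ hn]
    ring
  have hev1 : ∀ᶠ n : ℕ in atTop, φ / 2 < Real.log (U1 n) / n :=
    hlim1.eventually (lt_mem_nhds (by linarith))
  have hbig : ∀ᶠ n : ℕ in atTop, (2 : ℝ) ≤ Real.exp (φ / 4 * n) := by
    have h4 : Tendsto (fun n : ℕ => Real.exp (φ / 4 * n)) atTop atTop :=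
      Real.tendsto_exp_atTop.comp (tendsto_natCast_atTop_atTop.const_mul_atTop (by positivity))
    exact h4.eventually_ge_atTop 2
  have hfin : φ / 4 ≤ f lamc h0 - h0 := by
    refine ge_of_tendsto hlim0 ?_
    filter_upwards [hev1, hbig, hωB, eventually_ge_atTop 1] with n e1 e2 e3 e4
    have hn' : (0 : ℝ) < n := by exact_mod_cast e4
    rw [lt_div_iff₀ hn'] at e1
    have e5 : Real.exp (φ / 2 * n) < U1 n := by
      rw [← Real.exp_log (hU1pos n)]
      exact Real.exp_lt_exp.2 e1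
    have e6 : UB n ω < Real.exp (φ / 4 * n) := not_le.1 e3
    have e7 : Real.exp (φ / 2 * n) = Real.exp (φ / 4 * n) * Real.exp (φ / 4 * n) := by
      rw [← Real.exp_add]; congr 1; ring
    have e8 := hcmp n
    have e9 : Real.exp (φ / 4 * n) ≤ U0 n := by nlinarith
    rw [le_div_iff₀ hn']
    have e10 := Real.log_le_log (Real.exp_pos _) e9
    rwa [Real.log_exp] at e10
  linarith

/-- **Main theorem.** Let `η_1, η_2, ...` be i.i.d. and centred, `s > 0`, let `f` be the quenched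
free energy and `λ_c > 0` a threshold beyond which the critical curve is infinite. If `η_1` has a
finite exponential moment of some order `> s λ_c`, then the critical curve is infinite at `λ_c`
itself, i.e. the model is localised at `λ_c` for every `h ≥ 0`. -/
theorem result (hm : ∀ i, Measurable (η i)) (hind : iIndepFun η P)
    (hid : ∀ i, IdentDistrib (η i) (η 0) P P) (_hint : Integrable (η 0) P)
    (_hmean : ∫ ω, η 0 ω ∂P = 0) {s : ℝ} (_hs : 0 < s) {f : ℝ → ℝ → ℝ}
    (hf : IsFreeEnergy P η s f) {lamc : ℝ} (hlamc : 0 < lamc)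
    (hthr : ∀ lam, lamc < lam → hc f lam = ⊤)
    (hexp : ∃ t, lamc < t ∧ Integrable (fun ω => Real.exp (t * s * η 0 ω)) P) :
    hc f lamc = ⊤ ∧ ∀ h : ℝ, 0 ≤ h → h < f lamc h := by
  have h1 : ∀ h : ℝ, 0 ≤ h → h < f lamc h := fun h hh =>
    key hm hind hid hf hlamc hthr hexp hh
  refine ⟨?_, h1⟩
  unfold hc
  rw [sInf_eq_top]
  rintro x ⟨h, hh, heq, -⟩
  exact absurd heq (h1 h hh).ne'

end main

end Pool.Agent.Results.MP_11b949_pr.EndpointInfinite
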